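import Pool.Agent.W8.ST.Stm

/-!
Project ST (problem MP_7e83e7_gt), part Wir: the sharp inequality between a periodic function
with mean zero and its derivative.
-/

set_option autoImplicit false

namespace Pool.Agent.W490.ST

open Pool.Agent.W8.ST MeasureTheory

theorem memLp_cont (L : ℝ) (g : ℝ → ℂ) (hg : Continuous g) :
    MemLp g 2 (volume.restrict (Set.Ioc 0 L)) := by
  obtain ⟨C, hC⟩ := (isCompact_Icc (a := (0 : ℝ)) (b := L)).exists_bound_of_continuousOn
    hg.continuousOn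
  refine MemLp.of_bound hg.aestronglyMeasurable C ?_
  refine (ae_restrict_mem measurableSet_Ioc).mono fun x hx => ?_
  exact hC x ⟨hx.1.le, hx.2⟩

theorem Wir_proof : Wir := by
  intro L f hL hf hper hmean
  have hfd : ∀ x, HasDerivAt f (deriv f x) x := fun x =>
    (hf.differentiable (by norm_num)).differentiableAt.hasDerivAt
  have hdc : Continuous (deriv f) := hf.continuous_deriv le_rfl
  have hfc : Continuous f := hf.continuous
  have hF : ∀ x, HasDerivAt (fun x => (f x : ℂ)) ((deriv f x : ℝ) : ℂ) x := fun x =>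
    (hfd x).ofReal_comp
  have hFc : Continuous (fun x => (f x : ℂ)) := Complex.continuous_ofReal.comp hfc
  have hF'c : Continuous (fun x => ((deriv f x : ℝ) : ℂ)) := Complex.continuous_ofReal.comp hdc
  have P1 := hasSum_sq_fourierCoeffOn hL (memLp_cont L _ hFc)
  have P2 := hasSum_sq_fourierCoeffOn hL (memLp_cont L _ hF'c)
  have key : ∀ n : ℤ, (2 * Real.pi / L) ^ 2 * ‖fourierCoeffOn hL (fun x => (f x : ℂ)) n‖ ^ 2 ≤
      ‖fourierCoeffOn hL (fun x => ((deriv f x : ℝ) : ℂ)) n‖ ^ 2 := by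
    intro n
    by_cases hn : n = 0
    · subst hn
      have h0 : fourierCoeffOn hL (fun x => (f x : ℂ)) 0 = 0 := by
        rw [fourierCoeffOn_eq_integral]
        have : (∫ x in (0 : ℝ)..L, fourier (-0) (x : AddCircle (L - 0)) • (f x : ℂ)) =
            ((∫ x in (0 : ℝ)..L, f x : ℝ) : ℂ) := by
          rw [← intervalIntegral.integral_ofReal]
          refine intervalIntegral.integral_congr fun x _ => ?_
          simp
        rw [this, hmean]
        simp
      rw [h0, norm_zero, zero_pow two_ne_zero, mul_zero]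
      positivity
    · have h1 := fourierCoeffOn_of_hasDerivAt hL hn (fun x _ => hF x)
        (hF'c.intervalIntegrable 0 L)
      rw [hper, sub_self, mul_zero, zero_sub] at h1
      have hn1 : (1 : ℝ) ≤ |(n : ℝ)| := by
        have : (1 : ℤ) ≤ |n| := Int.one_le_abs hn
        exact_mod_cast this
      have h2 : ‖fourierCoeffOn hL (fun x => (f x : ℂ)) n‖ =
          L / (2 * Real.pi * |(n : ℝ)|) *
            ‖fourierCoeffOn hL (fun x => ((deriv f x : ℝ) : ℂ)) n‖ := by
        rw [h1]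
        simp only [norm_mul, norm_neg, norm_div, norm_one, Complex.norm_I, mul_one]
        have e1 : ‖((L : ℂ) - ((0 : ℝ) : ℂ))‖ = L := by
          rw [Complex.ofReal_zero, sub_zero, Complex.norm_real, Real.norm_eq_abs, abs_of_pos hL]
        have e2 : ‖(Real.pi : ℂ)‖ = Real.pi := by
          rw [Complex.norm_real, Real.norm_eq_abs, abs_of_pos Real.pi_pos]
        have e3 : ‖(n : ℂ)‖ = |(n : ℝ)| := by
          rw [← Complex.ofReal_intCast, Complex.norm_real, Real.norm_eq_abs]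
        have e4 : ‖(2 : ℂ)‖ = 2 := by simp
        rw [e1, e2, e3, e4]
        ring
      have hp : (0 : ℝ) < 2 * Real.pi := by positivity
      have hnp : (0 : ℝ) < |(n : ℝ)| := by linarith
      rw [h2]
      set c := ‖fourierCoeffOn hL (fun x => ((deriv f x : ℝ) : ℂ)) n‖ with hc
      have h3 : (2 * Real.pi / L) ^ 2 * (L / (2 * Real.pi * |(n : ℝ)|) * c) ^ 2 =
          (1 / |(n : ℝ)| ^ 2) * c ^ 2 := by
        field_simp
      rw [h3]
      have h4 : 1 / |(n : ℝ)| ^ 2 ≤ 1 := by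
        rw [div_le_one (by positivity)]
        nlinarith
      have h5 : 0 ≤ c ^ 2 := sq_nonneg _
      nlinarith
  have h6 := hasSum_le key (P1.mul_left ((2 * Real.pi / L) ^ 2)) P2
  have e1 : ∫ x in (0 : ℝ)..L, ‖(f x : ℂ)‖ ^ 2 = ∫ x in (0 : ℝ)..L, (f x) ^ 2 := by
    refine intervalIntegral.integral_congr fun x _ => ?_
    simp only [Complex.norm_real, Real.norm_eq_abs, sq_abs]
  have e2 : ∫ x in (0 : ℝ)..L, ‖((deriv f x : ℝ) : ℂ)‖ ^ 2 =
      ∫ x in (0 : ℝ)..L, (deriv f x) ^ 2 := by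
    refine intervalIntegral.integral_congr fun x _ => ?_
    simp only [Complex.norm_real, Real.norm_eq_abs, sq_abs]
  rw [e1, e2, sub_zero, smul_eq_mul, smul_eq_mul] at h6
  have h7 : L * ((2 * Real.pi / L) ^ 2 * (L⁻¹ * ∫ x in (0 : ℝ)..L, (f x) ^ 2)) ≤
      L * (L⁻¹ * ∫ x in (0 : ℝ)..L, (deriv f x) ^ 2) :=
    mul_le_mul_of_nonneg_left h6 hL.le
  have h8 : L * (L⁻¹ * ∫ x in (0 : ℝ)..L, (deriv f x) ^ 2) =
      ∫ x in (0 : ℝ)..L, (deriv f x) ^ 2 := by
    rw [← mul_assoc, mul_inv_cancel₀ hL.ne', one_mul]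
  have h9 : L * ((2 * Real.pi / L) ^ 2 * (L⁻¹ * ∫ x in (0 : ℝ)..L, (f x) ^ 2)) =
      (2 * Real.pi / L) ^ 2 * ∫ x in (0 : ℝ)..L, (f x) ^ 2 := by
    rw [show L * ((2 * Real.pi / L) ^ 2 * (L⁻¹ * ∫ x in (0 : ℝ)..L, (f x) ^ 2)) =
      (L * L⁻¹) * ((2 * Real.pi / L) ^ 2 * ∫ x in (0 : ℝ)..L, (f x) ^ 2) by ring,
      mul_inv_cancel₀ hL.ne', one_mul]
  rw [h8, h9] at h7
  exact h7

end Pool.Agent.W490.ST
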